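import Mathlib

/-!
# Hilbert series of generic ideals in the square-free algebra: two linear forms

Let `K` be an infinite field (of any characteristic).  For every odd number `n = 2 m + 1 ≥ 7` the
ideal of the square-free algebra `K[x_1, …, x_n] / (x_1^2, …, x_n^2)` generated by two generic
linear forms has a quotient whose component of degree `m` is not zero, although the predicted
series `⟨(1 + t)^n (1 - t)^2⟩` has no term of degree `m`.  So the conjectured formula for the
Hilbert series of generic ideals fails for `r = 2`, `d_1 = d_2 = 1` and all odd `n ≥ 7`.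
-/

set_option autoImplicit false

open MvPolynomial

namespace Pool.Agent.Results.MP_3acc10_al.TwoLinearForms

section defs

variable (K : Type*) [Field K] (n r : ℕ) (d : Fin r → ℕ)

/-- The index set of the coefficients of `f_1, …, f_r`: the pairs `(i, S)` with `i ∈ {1, …, r}` and
`S` a set of `d_i` variables, standing for the coefficient of `∏_{j ∈ S} x_j` in `f_i`. -/
abbrev Coeffs : Type := Σ i : Fin r, {S : Finset (Fin n) // S.card = d i}

variable {K n r d}

/-- The form `f_i = ∑_{|S| = d_i} c_{i,S} ∏_{j ∈ S} x_j`. -/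
noncomputable def form (c : Coeffs n r d → K) (i : Fin r) : MvPolynomial (Fin n) K :=
  ∑ S : {S : Finset (Fin n) // S.card = d i}, C (c ⟨i, S⟩) * ∏ j ∈ S.1, X j

/-- The ideal `(x_1^2, …, x_n^2, f_1, …, f_r)` of `K[x_1, …, x_n]`.  The quotient by it is the
quotient of the square-free algebra `K[x_1, …, x_n] / (x_1^2, …, x_n^2)` by the ideal generated by
the classes of `f_1, …, f_r`. -/
noncomputable def relations (c : Coeffs n r d → K) : Ideal (MvPolynomial (Fin n) K) :=
  Ideal.span (Set.range (fun j : Fin n => (X j : MvPolynomial (Fin n) K) ^ 2) ∪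
    Set.range (form c))

/-- The Hilbert function of `K[x_1, …, x_n] / J` for an ideal `J` (homogeneous in our case): the
dimension of the image of the space of homogeneous polynomials of degree `k`. -/
noncomputable def hilbert (J : Ideal (MvPolynomial (Fin n) K)) (k : ℕ) : ℕ :=
  Module.finrank K
    ((homogeneousSubmodule (Fin n) K k).map (Ideal.Quotient.mkₐ K J).toLinearMap)

/-- The Hilbert function of the quotient by a generic ideal generated in degrees `d_1, …, d_r` is
`h`: it equals `h` on a nonempty Zariski-open set of coefficient vectors (it suffices to consider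
basic open sets `P ≠ 0`). -/
def GenericHilbert (K : Type*) [Field K] (n r : ℕ) (d : Fin r → ℕ) (h : ℕ → ℤ) : Prop :=
  ∃ P : MvPolynomial (Coeffs n r d) K, P ≠ 0 ∧
    ∀ c : Coeffs n r d → K, eval c P ≠ 0 → ∀ k, (hilbert (relations c) k : ℤ) = h k

/-- The coefficients of `(1 + t)^n ∏_i (1 - t^{d_i})`. -/
noncomputable def series (n r : ℕ) (d : Fin r → ℕ) (k : ℕ) : ℤ :=
  Polynomial.coeff ((1 + Polynomial.X) ^ n * ∏ i, (1 - Polynomial.X ^ d i) : Polynomial ℤ) k

open Classical in
/-- The coefficients of the truncated series `⟨∑ a_i t^i⟩`: only the terms before the first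
coefficient `a_i ≤ 0` are kept. -/
noncomputable def truncation (a : ℕ → ℤ) (k : ℕ) : ℤ :=
  if ∀ j ≤ k, 0 < a j then a k else 0

end defs

section functional

variable {K : Type*} [Field K] {n : ℕ}

/-- The exponent of the square-free monomial with support `S`. -/
noncomputable def sg (S : Finset (Fin n)) : Fin n →₀ ℕ := Finsupp.indicator S (fun _ _ => 1)

lemma sg_apply (S : Finset (Fin n)) (i : Fin n) : sg S i = if i ∈ S then 1 else 0 := by
  rw [sg, Finsupp.indicator_apply]
  split_ifs <;> rfl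

lemma sg_support (S : Finset (Fin n)) : (sg S).support = S := by
  ext i
  rw [Finsupp.mem_support_iff, sg_apply]
  split_ifs with h <;> simp [h]

lemma sg_sub (S : Finset (Fin n)) {i : Fin n} (hi : i ∈ S) :
    sg S - Finsupp.single i 1 = sg (S.erase i) := by
  ext j
  rw [Finsupp.tsub_apply, sg_apply, sg_apply, Finsupp.single_apply]
  by_cases hj : i = j
  · subst hj; simp [hi]
  · have : j ≠ i := fun h => hj h.symm
    by_cases h2 : j ∈ S <;> simp [hj, h2, this]

/-- The linear functional `p ↦ ∑_{|S| = m} c_S coeff_S(p)`. -/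
noncomputable def fun1 (m : ℕ) (w : Finset (Fin n) → K) : MvPolynomial (Fin n) K →ₗ[K] K :=
  ∑ S ∈ (Finset.univ : Finset (Fin n)).powersetCard m, w S • lcoeff K (sg S)

lemma fun1_apply (m : ℕ) (w : Finset (Fin n) → K) (p : MvPolynomial (Fin n) K) :
    fun1 m w p = ∑ S ∈ (Finset.univ : Finset (Fin n)).powersetCard m, w S * coeff (sg S) p := by
  simp [fun1, lcoeff_apply]

lemma fun1_sq (m : ℕ) (w : Finset (Fin n) → K) (p : MvPolynomial (Fin n) K) (i : Fin n) :
    fun1 m w (p * X i ^ 2) = 0 := by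
  rw [fun1_apply]
  refine Finset.sum_eq_zero fun S _ => ?_
  rw [X_pow_eq_monomial, coeff_mul_monomial', if_neg, mul_zero]
  intro h
  have := h i
  rw [Finsupp.single_eq_same, sg_apply] at this
  split_ifs at this <;> omega

lemma sum_swap (m : ℕ) (f : Finset (Fin n) → Fin n → K) :
    ∑ S ∈ (Finset.univ : Finset (Fin n)).powersetCard (m + 1), ∑ k ∈ S, f (S.erase k) k =
      ∑ T ∈ (Finset.univ : Finset (Fin n)).powersetCard m, ∑ k ∈ Tᶜ, f T k := by
  rw [Finset.sum_sigma', Finset.sum_sigma']
  refine Finset.sum_bij' (fun x _ => ⟨x.1.erase x.2, x.2⟩) (fun x _ => ⟨insert x.2 x.1, x.2⟩)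
    ?_ ?_ ?_ ?_ ?_
  · rintro ⟨S, k⟩ h
    simp only [Finset.mem_sigma, Finset.mem_powersetCard_univ, Finset.mem_compl] at h ⊢
    refine ⟨by rw [Finset.card_erase_of_mem h.2, h.1]; rfl, Finset.notMem_erase k S⟩
  · rintro ⟨T, k⟩ h
    simp only [Finset.mem_sigma, Finset.mem_powersetCard_univ, Finset.mem_compl] at h ⊢
    refine ⟨by rw [Finset.card_insert_of_notMem h.2, h.1], Finset.mem_insert_self k T⟩
  · rintro ⟨S, k⟩ h
    simp only [Finset.mem_sigma] at h
    simp only [Finset.insert_erase h.2]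
  · rintro ⟨T, k⟩ h
    simp only [Finset.mem_sigma, Finset.mem_compl] at h
    simp only [Finset.erase_insert h.2]
  · rintro ⟨S, k⟩ _
    rfl

lemma fun1_linear (m : ℕ) (w : Finset (Fin n) → K) (a : Fin n → K)
    (h : ∀ T : Finset (Fin n), T.card = m → ∑ k ∈ Tᶜ, a k * w (insert k T) = 0)
    (p : MvPolynomial (Fin n) K) : fun1 (m + 1) w (p * ∑ k, C (a k) * X k) = 0 := by
  rw [fun1_apply]
  have h1 : ∀ S ∈ (Finset.univ : Finset (Fin n)).powersetCard (m + 1),
      w S * coeff (sg S) (p * ∑ k, C (a k) * X k) =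
        ∑ k ∈ S, (a k * w (insert k (S.erase k))) * coeff (sg (S.erase k)) p := by
    intro S _
    rw [Finset.mul_sum, coeff_sum, Finset.mul_sum]
    have h2 : ∀ k, w S * coeff (sg S) (p * (C (a k) * X k)) =
        if k ∈ S then (a k * w (insert k (S.erase k))) * coeff (sg (S.erase k)) p else 0 := by
      intro k
      rw [← mul_assoc, coeff_mul_X', sg_support]
      split_ifs with hk
      · rw [sg_sub S hk, mul_comm p, coeff_C_mul, Finset.insert_erase hk]; ring
      · rw [mul_zero]
    simp only [h2]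
    rw [Finset.sum_ite_mem, Finset.univ_inter]
  rw [Finset.sum_congr rfl h1, sum_swap m (fun T k => (a k * w (insert k T)) * coeff (sg T) p)]
  refine Finset.sum_eq_zero fun T hT => ?_
  rw [← Finset.sum_mul, h T (Finset.mem_powersetCard_univ.1 hT), zero_mul]

end functional

section weights

variable {K : Type*} [Field K] {n : ℕ}

/-- The weights of the functional. -/
noncomputable def wt (a lam : Fin n → K) (S : Finset (Fin n)) : K :=
  (∏ s ∈ S, ((∏ j ∈ Finset.univ.erase s, (lam s - lam j)) * a s)⁻¹) *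
    ∏ s ∈ S, ∏ t ∈ S.erase s, (lam s - lam t)

lemma wt_ne_zero (a lam : Fin n → K) (ha : ∀ i, a i ≠ 0) (hl : Function.Injective lam)
    (S : Finset (Fin n)) : wt a lam S ≠ 0 := by
  have hne : ∀ s t, t ≠ s → lam s - lam t ≠ 0 := fun s t h =>
    sub_ne_zero.2 fun h' => h (hl h').symm
  unfold wt
  refine mul_ne_zero ?_ ?_
  · rw [Finset.prod_ne_zero_iff]
    intro s _
    refine inv_ne_zero (mul_ne_zero ?_ (ha s))
    rw [Finset.prod_ne_zero_iff]
    exact fun j hj => hne s j (Finset.ne_of_mem_erase hj)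
  · rw [Finset.prod_ne_zero_iff]
    intro s _
    rw [Finset.prod_ne_zero_iff]
    exact fun j hj => hne s j (Finset.ne_of_mem_erase hj)

lemma prod_insert_pairs (lam : Fin n → K) (T : Finset (Fin n)) {k : Fin n} (hk : k ∉ T) :
    ∏ s ∈ insert k T, ∏ t ∈ (insert k T).erase s, (lam s - lam t) =
      ((∏ t ∈ T, (lam k - lam t)) * ∏ t ∈ T, (lam t - lam k)) *
        ∏ s ∈ T, ∏ t ∈ T.erase s, (lam s - lam t) := by
  have h : ∀ s ∈ T, ∏ t ∈ (insert k T).erase s, (lam s - lam t) =
      (lam s - lam k) * ∏ t ∈ T.erase s, (lam s - lam t) := by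
    intro s hs
    have hsk : s ≠ k := fun h => hk (h ▸ hs)
    rw [Finset.erase_insert_of_ne hsk.symm, Finset.prod_insert]
    intro h
    exact hk (Finset.mem_of_mem_erase h)
  rw [Finset.prod_insert hk, Finset.erase_insert hk, Finset.prod_congr rfl h,
    Finset.prod_mul_distrib, mul_assoc]

lemma sum_wt (a lam : Fin n → K) (ha : ∀ i, a i ≠ 0) (hl : Function.Injective lam)
    (T : Finset (Fin n)) (e : ℕ) (he : e ≤ 1) (hn : 2 * T.card + 2 < n) :
    ∑ k ∈ Tᶜ, (a k * lam k ^ e) * wt a lam (insert k T) = 0 := by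
  classical
  set q : Polynomial K := Polynomial.X ^ e *
    ((∏ t ∈ T, (Polynomial.X - Polynomial.C (lam t))) *
      ∏ t ∈ T, (Polynomial.C (lam t) - Polynomial.X)) with hq
  have hdeg : q.natDegree ≤ 2 * T.card + 1 := by
    have h1 : (∏ t ∈ T, (Polynomial.X - Polynomial.C (lam t)) : Polynomial K).natDegree ≤
        T.card := by
      refine (Polynomial.natDegree_prod_le _ _).trans ?_
      rw [Finset.card_eq_sum_ones]
      exact Finset.sum_le_sum fun t _ => (Polynomial.natDegree_X_sub_C _).le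
    have h2 : (∏ t ∈ T, (Polynomial.C (lam t) - Polynomial.X) : Polynomial K).natDegree ≤
        T.card := by
      refine (Polynomial.natDegree_prod_le _ _).trans ?_
      rw [Finset.card_eq_sum_ones]
      refine Finset.sum_le_sum fun t _ => ?_
      refine (Polynomial.natDegree_sub_le _ _).trans ?_
      simp
    refine (Polynomial.natDegree_mul_le).trans ?_
    have h3 : (Polynomial.X ^ e : Polynomial K).natDegree ≤ e := by simp
    have h4 := Polynomial.natDegree_mul_le
      (p := (∏ t ∈ T, (Polynomial.X - Polynomial.C (lam t)) : Polynomial K))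
      (q := ∏ t ∈ T, (Polynomial.C (lam t) - Polynomial.X))
    omega
  have hn1 : q.degree < ((Finset.univ : Finset (Fin n)).card : ℕ) := by
    rw [Finset.card_univ, Fintype.card_fin]
    exact lt_of_le_of_lt Polynomial.degree_le_natDegree (by exact_mod_cast (by omega))
  have hsum := Lagrange.coeff_eq_sum (s := (Finset.univ : Finset (Fin n))) (v := lam)
    (fun _ _ _ _ h => hl h) hn1
  rw [Polynomial.coeff_eq_zero_of_natDegree_lt (by
    rw [Finset.card_univ, Fintype.card_fin]; omega)] at hsum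
  have hev : ∀ k, q.eval (lam k) = lam k ^ e *
      ((∏ t ∈ T, (lam k - lam t)) * ∏ t ∈ T, (lam t - lam k)) := by
    intro k
    simp [hq, Polynomial.eval_prod]
  set D : K := (∏ s ∈ T, ((∏ j ∈ Finset.univ.erase s, (lam s - lam j)) * a s)⁻¹) *
    ∏ s ∈ T, ∏ t ∈ T.erase s, (lam s - lam t) with hD
  have h5 : ∀ k ∈ Tᶜ, (a k * lam k ^ e) * wt a lam (insert k T) =
      D * (q.eval (lam k) / ∏ j ∈ Finset.univ.erase k, (lam k - lam j)) := by
    intro k hk
    rw [Finset.mem_compl] at hk
    rw [wt, prod_insert_pairs lam T hk, Finset.prod_insert hk, hev, hD, mul_inv]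
    have := ha k
    field_simp
  rw [Finset.sum_congr rfl h5, ← Finset.mul_sum]
  have h6 : ∑ k ∈ Tᶜ, q.eval (lam k) / ∏ j ∈ Finset.univ.erase k, (lam k - lam j) =
      ∑ k, q.eval (lam k) / ∏ j ∈ Finset.univ.erase k, (lam k - lam j) := by
    refine Finset.sum_subset (Finset.subset_univ _) fun k _ hk => ?_
    rw [Finset.mem_compl, not_not] at hk
    rw [hev, Finset.prod_eq_zero hk (sub_self _)]
    simp
  rw [h6, ← hsum, mul_zero]

end weights

section main

variable {K : Type*} [Field K] {n : ℕ}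

/-- The set `{k}` as an index. -/
def one (k : Fin n) : {S : Finset (Fin n) // S.card = 1} := ⟨{k}, Finset.card_singleton k⟩

lemma one_bijective : Function.Bijective (one (n := n)) := by
  constructor
  · intro a b h
    exact Finset.singleton_injective (congrArg Subtype.val h)
  · rintro ⟨S, hS⟩
    obtain ⟨k, rfl⟩ := Finset.card_eq_one.1 hS
    exact ⟨k, rfl⟩

lemma form_eq (c : Coeffs n 2 (fun _ => 1) → K) (i : Fin 2) :
    form c i = ∑ k, C (c ⟨i, one k⟩) * X k := by
  rw [form]
  symm
  refine Fintype.sum_bijective one one_bijective _ _ fun k => ?_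
  simp [one]

/-- The polynomial that has to be non-zero. -/
noncomputable def good (K : Type*) [Field K] (n : ℕ) :
    MvPolynomial (Coeffs n 2 (fun _ => 1)) K :=
  (∏ k, X ⟨0, one k⟩) * ∏ j, ∏ k ∈ Finset.univ.erase j,
    (X ⟨0, one j⟩ * X ⟨1, one k⟩ - X ⟨0, one k⟩ * X ⟨1, one j⟩)

lemma good_ne_zero : good K n ≠ 0 := by
  classical
  refine mul_ne_zero (Finset.prod_ne_zero_iff.2 fun k _ => X_ne_zero _)
    (Finset.prod_ne_zero_iff.2 fun j _ => Finset.prod_ne_zero_iff.2 fun k hk => ?_)
  have hkj : k ≠ j := Finset.ne_of_mem_erase hk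
  intro h
  have h1 := congrArg (eval (fun x : Coeffs n 2 (fun _ => 1) =>
    if x = ⟨0, one j⟩ ∨ x = ⟨1, one k⟩ then (1 : K) else 0)) h
  have h2 : ((⟨0, one k⟩ : Coeffs n 2 (fun _ => 1)) ≠ ⟨0, one j⟩) := by
    intro h
    have := one_bijective.1 (eq_of_heq (Sigma.mk.inj h).2)
    exact hkj this
  have h3 : ((⟨0, one k⟩ : Coeffs n 2 (fun _ => 1)) ≠ ⟨1, one k⟩) := by
    intro h
    exact absurd (Sigma.mk.inj h).1 (by decide)
  simp [h2, h3] at h1

lemma relations_le (c : Coeffs n 2 (fun _ => 1) → K) (Λ : MvPolynomial (Fin n) K →ₗ[K] K)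
    (h1 : ∀ p (i : Fin n), Λ (p * X i ^ 2) = 0) (h2 : ∀ p i, Λ (p * form c i) = 0)
    {x : MvPolynomial (Fin n) K} (hx : x ∈ relations c) : Λ x = 0 := by
  let N : Ideal (MvPolynomial (Fin n) K) :=
    { carrier := {x | ∀ q, Λ (q * x) = 0}
      add_mem' := by
        intro a b ha hb q
        rw [mul_add, map_add, ha, hb, add_zero]
      zero_mem' := by intro q; rw [mul_zero, map_zero]
      smul_mem' := by
        intro a b hb q
        rw [smul_eq_mul, ← mul_assoc]
        exact hb _ }
  have hle : relations c ≤ N := by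
    refine Ideal.span_le.2 ?_
    rintro y (⟨i, rfl⟩ | ⟨i, rfl⟩)
    · exact fun q => h1 q i
    · exact fun q => h2 q i
  have := hle hx 1
  rwa [one_mul] at this

lemma hilbert_pos (J : Ideal (MvPolynomial (Fin n) K)) (m : ℕ) (S : Finset (Fin n))
    (hS : S.card = m) (hJ : monomial (sg S) (1 : K) ∉ J) : 1 ≤ hilbert J m := by
  set M := (homogeneousSubmodule (Fin n) K m).map (Ideal.Quotient.mkₐ K J).toLinearMap with hM
  have hfg : M.FG := (homogeneousSubmodule_fg (Fin n) K m).map _
  have : Module.Finite K M := Module.Finite.iff_fg.2 hfg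
  have hmem : (Ideal.Quotient.mkₐ K J) (monomial (sg S) (1 : K)) ∈ M := by
    refine ⟨monomial (sg S) 1, ?_, rfl⟩
    refine isHomogeneous_monomial _ ?_
    rw [← hS, Finsupp.degree_eq_sum]
    simp only [sg_apply]
    simp
  have hne : (⟨_, hmem⟩ : M) ≠ 0 := by
    intro h
    apply hJ
    have h1 := congrArg Subtype.val h
    exact Ideal.Quotient.eq_zero_iff_mem.1 h1
  have : Nontrivial M := ⟨⟨_, 0, hne⟩⟩
  exact Module.finrank_pos

lemma hilbert_ge (m : ℕ) (hm : 1 ≤ m) (hn : 2 * m < n) (c : Coeffs n 2 (fun _ => 1) → K)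
    (hc : eval c (good K n) ≠ 0) : 1 ≤ hilbert (relations c) m := by
  classical
  obtain ⟨m, rfl⟩ : ∃ k, m = k + 1 := ⟨m - 1, by omega⟩
  set a : Fin n → K := fun k => c ⟨0, one k⟩ with ha
  set b : Fin n → K := fun k => c ⟨1, one k⟩ with hb
  have hc' : (∏ k, a k) * (∏ j, ∏ k ∈ Finset.univ.erase j, (a j * b k - a k * b j)) ≠ 0 := by
    intro h
    apply hc
    rw [← h, good]
    simp [ha, hb]
  have ha0 : ∀ i, a i ≠ 0 := fun i =>
    Finset.prod_ne_zero_iff.1 (left_ne_zero_of_mul hc') i (Finset.mem_univ i)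
  have hab : ∀ j k, k ≠ j → a j * b k - a k * b j ≠ 0 := fun j k hjk =>
    Finset.prod_ne_zero_iff.1 (Finset.prod_ne_zero_iff.1 (right_ne_zero_of_mul hc') j
      (Finset.mem_univ j)) k (Finset.mem_erase.2 ⟨hjk, Finset.mem_univ k⟩)
  set lam : Fin n → K := fun i => b i / a i with hlam
  have hinj : Function.Injective lam := by
    intro j k h
    by_contra hne
    apply hab j k (fun h => hne h.symm)
    simp only [hlam] at h
    rw [div_eq_div_iff (ha0 j) (ha0 k)] at h
    linear_combination -h
  have hb' : ∀ i, b i = a i * lam i := by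
    intro i
    simp only [hlam]
    have := ha0 i
    field_simp
  obtain ⟨S, -, hS⟩ := Finset.exists_subset_card_eq
    (s := (Finset.univ : Finset (Fin n))) (n := m + 1)
    (by rw [Finset.card_univ, Fintype.card_fin]; omega)
  refine hilbert_pos _ _ S hS fun hmem => ?_
  have hzero := relations_le c (fun1 (m + 1) (wt a lam)) (fun p i => fun1_sq _ _ p i)
    (fun p i => ?_) hmem
  · rw [fun1_apply, Finset.sum_eq_single S] at hzero
    · rw [coeff_monomial, if_pos rfl, mul_one] at hzero
      exact wt_ne_zero a lam ha0 hinj S hzero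
    · intro T _ hT
      rw [coeff_monomial, if_neg, mul_zero]
      intro h
      apply hT
      rw [← sg_support T, ← h, sg_support]
    · intro h
      exact absurd (Finset.mem_powersetCard_univ.2 hS) h
  · rw [form_eq]
    refine fun1_linear m _ _ (fun T hT => ?_) p
    fin_cases i
    · have := sum_wt a lam ha0 hinj T 0 (by norm_num) (by omega)
      simpa using this
    · have := sum_wt a lam ha0 hinj T 1 (by norm_num) (by omega)
      simp only [pow_one] at this
      rw [← this]
      exact Finset.sum_congr rfl fun k _ => by rw [← hb' k]; rfl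

lemma series_le (m : ℕ) (hm : 3 ≤ m) : series (2 * m + 1) 2 (fun _ => 1) m ≤ 0 := by
  obtain ⟨k, rfl⟩ : ∃ k, m = k + 3 := ⟨m - 3, by omega⟩
  have h1 : series (2 * (k + 3) + 1) 2 (fun _ => 1) (k + 3) =
      ((2 * (k + 3) + 1).choose (k + 3) : ℤ) - 2 * ((2 * (k + 3) + 1).choose (k + 2) : ℤ) +
        ((2 * (k + 3) + 1).choose (k + 1) : ℤ) := by
    rw [series, Fin.prod_univ_two, pow_one]
    have h2 : ((1 + Polynomial.X) ^ (2 * (k + 3) + 1) * ((1 - Polynomial.X) * (1 - Polynomial.X)) :
        Polynomial ℤ) = (1 + Polynomial.X) ^ (2 * (k + 3) + 1) -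
          Polynomial.C 2 * ((1 + Polynomial.X) ^ (2 * (k + 3) + 1) * Polynomial.X) +
          (1 + Polynomial.X) ^ (2 * (k + 3) + 1) * Polynomial.X ^ 2 := by
      have : (Polynomial.C 2 : Polynomial ℤ) = 2 := rfl
      rw [this]; ring
    rw [h2, Polynomial.coeff_add, Polynomial.coeff_sub, Polynomial.coeff_C_mul,
      Polynomial.coeff_mul_X, show k + 3 = (k + 1) + 2 from rfl, Polynomial.coeff_mul_X_pow,
      Polynomial.coeff_one_add_X_pow, Polynomial.coeff_one_add_X_pow,
      Polynomial.coeff_one_add_X_pow]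
  rw [h1]
  have e1 : ((2 * (k + 3) + 1).choose (k + 3) : ℤ) * (k + 3) =
      ((2 * (k + 3) + 1).choose (k + 2) : ℤ) * (k + 5) := by
    have := Nat.choose_succ_right_eq (2 * (k + 3) + 1) (k + 2)
    rw [show 2 * (k + 3) + 1 - (k + 2) = k + 5 by omega] at this
    exact_mod_cast this
  have e2 : ((2 * (k + 3) + 1).choose (k + 2) : ℤ) * (k + 2) =
      ((2 * (k + 3) + 1).choose (k + 1) : ℤ) * (k + 6) := by
    have := Nat.choose_succ_right_eq (2 * (k + 3) + 1) (k + 1)
    rw [show 2 * (k + 3) + 1 - (k + 1) = k + 6 by omega] at this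
    exact_mod_cast this
  set A : ℤ := ((2 * (k + 3) + 1).choose (k + 3) : ℤ)
  set B : ℤ := ((2 * (k + 3) + 1).choose (k + 2) : ℤ)
  have hC : (0 : ℤ) ≤ ((2 * (k + 3) + 1).choose (k + 1) : ℤ) := Int.natCast_nonneg _
  set D : ℤ := ((2 * (k + 3) + 1).choose (k + 1) : ℤ)
  have hk : (0 : ℤ) ≤ k := Int.natCast_nonneg _
  have key : ((k : ℤ) + 3) * (k + 2) * (A - 2 * B + D) = D * (-2 * k) := by
    linear_combination ((k : ℤ) + 2) * e1 - ((k : ℤ) + 1) * e2
  have hpos : (0 : ℤ) < ((k : ℤ) + 3) * (k + 2) := by positivity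
  by_contra hcon
  push Not at hcon
  have h3 : 0 < ((k : ℤ) + 3) * (k + 2) * (A - 2 * B + D) := mul_pos hpos hcon
  have h4 : D * (-2 * (k : ℤ)) ≤ 0 := by nlinarith
  linarith

end main

/-- Over every infinite field `K` (of any characteristic) and for every `m ≥ 3`, the Hilbert series
of the quotient of the square-free algebra on `n = 2 m + 1` variables by the ideal generated by two
generic linear forms is not the truncated series `⟨(1 + t)^n (1 - t)^2⟩`. (For `m = 3` this is the
case `n = 7`, `r = 2`, `d_1 = d_2 = 1`.) -/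
theorem result (K : Type*) [Field K] [Infinite K] (m : ℕ) (hm : 3 ≤ m) :
    ¬ GenericHilbert K (2 * m + 1) 2 (fun _ => 1)
      (truncation (series (2 * m + 1) 2 (fun _ => 1))) := by
  rintro ⟨P, hP, h⟩
  have hPQ : P * good K (2 * m + 1) ≠ 0 := mul_ne_zero hP good_ne_zero
  obtain ⟨c, hc⟩ : ∃ c, eval c (P * good K (2 * m + 1)) ≠ 0 := by
    by_contra hcon
    push Not at hcon
    exact hPQ (MvPolynomial.funext fun x => by rw [hcon x, map_zero])
  rw [map_mul] at hc
  have h1 := h c (left_ne_zero_of_mul hc) m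
  have h2 := hilbert_ge m (by omega) (by omega) c (right_ne_zero_of_mul hc)
  rw [truncation, if_neg] at h1
  · have : hilbert (relations c) m = 0 := by exact_mod_cast h1
    omega
  · intro hcon
    exact absurd (hcon m le_rfl) (not_lt.2 (series_le m hm))

end Pool.Agent.Results.MP_3acc10_al.TwoLinearForms
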